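import Pool.Agent.Lib.MP_4ed7e0_lc.Opn

/-!
MP_4ed7e0_lc: large fields and extensions with a rational place, for systems of additive
equations and arbitrary polynomial inequations.
-/

set_option autoImplicit false

namespace Pool.Agent.Results.MP_4ed7e0_lc.AdditiveSystems

open Pool.Agent.R4A

universe u

/-- Let `K` be a large field of characteristic `p > 0` (perfect or not) and `L` an extension field
of `K` with a `K`-rational place. Every finite system of equations `A_i (x) = c_i` with additive
polynomials `A_i` over `K` in `n` variables and inequations `g_j (x) ≠ 0` with arbitrary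
polynomials `g_j` over `K` which is solvable in `L` is solvable in `K`. -/
theorem result (p : ℕ) [Fact p.Prime] (K L : Type u) [Field K] [CharP K p] [Field L] [Algebra K L]
    (hK : Large K) (O : ValuationSubring L) (hO : IsRat K O) {n r s : ℕ}
    (A : Fin r → Fin n → ℕ →₀ K) (c : Fin r → K) (g : Fin s → MvPolynomial (Fin n) K)
    (hx : ∃ x : Fin n → L, (∀ i, evs p (A i) x = algebraMap K L (c i)) ∧
      ∀ j, MvPolynomial.aeval x (g j) ≠ 0) :
    ∃ x : Fin n → K, (∀ i, evs p (A i) x = c i) ∧ ∀ j, MvPolynomial.eval x (g j) ≠ 0 := by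
  obtain ⟨x, hA, hg⟩ := hx
  obtain ⟨y, hy, hy'⟩ := main_opn (p := p) hK hO A c (∏ j, g j) ⟨x, hA, by
    rw [map_prod]
    exact Finset.prod_ne_zero_iff.2 fun j _ => hg j⟩
  refine ⟨y, hy, fun j => ?_⟩
  rw [map_prod] at hy'
  exact Finset.prod_ne_zero_iff.1 hy' j (Finset.mem_univ j)

end Pool.Agent.Results.MP_4ed7e0_lc.AdditiveSystems
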