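import Pool.Agent.Lib.MP_4ed7e0_lc_U.Kuhl

/-!
MP_4ed7e0_lc: hypothesis (R4) for the large fields of characteristic `p` with only finitely many
Artin-Schreier extensions.

`Large`, `IsRat` are defined in `Pool/Agent/Lib/MP_4ed7e0_lc/Defs.lean`; `Solv`, `Tr`, `EC`,
`FewAS`, `Sepa`, `Hull` in `Pool/Agent/Lib/MP_4ed7e0_lc_F/Defs.lean`.
-/

set_option autoImplicit false

namespace Pool.Agent.Results.MP_4ed7e0_lc.FewArtinSchreier

open Pool.Agent.R4A Pool.Agent.R4F

universe u

/-- Let `K` be a large field of characteristic `p > 0` (perfect or not) such that the additive group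
of the elements `y ^ p - y` has finite index in `K`. Then `K` is existentially closed in every
extension field with a `K`-rational place, and `K` is existentially closed in a separable extension
`L` if and only if every finite system of polynomial equations over `K` solvable in `L` is solvable
in the perfect hull of `K`. -/
theorem result (p : ℕ) [Fact p.Prime] (K : Type u) [Field K] [CharP K p] (hK : Large K)
    (hT : FewAS p K) :
    (∀ (L : Type u) [Field L] [Algebra K L] (O : ValuationSubring L), IsRat K O → EC K L) ∧
    ∀ (L : Type u) [Field L] [Algebra K L], Sepa p K L → (EC K L ↔ Tr K L (Hull K)) :=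
  ⟨fun L _ _ O hO => Pool.Agent.R4U.main p hK hT L O hO, fun _ _ _ hs => main1 p hK hT hs⟩

end Pool.Agent.Results.MP_4ed7e0_lc.FewArtinSchreier
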