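import Pool.Agent.Lib.MP_4ed7e0_lc_LD.Main

/-!
MP_4ed7e0_lc: large fields and extensions with a rational place, for systems consisting of one
cubic equation or two quadratic equations, any number of linear equations and any number of
inequations, in any number of variables.
-/

set_option autoImplicit false

namespace Pool.Agent.Results.MP_4ed7e0_lc.LowDegree

open Pool.Agent.R4A

universe u

/-- Let `K` be a large field (of any characteristic, perfect or not) and `L` an extension field of
`K` with a `K`-rational place. Every finite system of equations `f_i (x) = 0` over `K` in `n`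
variables with `∑ (deg f_i - 1) ≤ 2` (the sum over the `i` with `deg f_i ≥ 1`; truncated
subtraction) and of inequations `g_j (x) ≠ 0` with arbitrary polynomials `g_j` over `K` which is
solvable in `L` is solvable in `K`. -/
theorem result (K L : Type u) [Field K] [Field L] [Algebra K L] (hK : Large K)
    (O : ValuationSubring L) (hO : IsRat K O) {n r s : ℕ} (f : Fin r → MvPolynomial (Fin n) K)
    (hf : ∑ i, ((f i).totalDegree - 1) ≤ 2) (g : Fin s → MvPolynomial (Fin n) K)
    (hx : ∃ x : Fin n → L, (∀ i, MvPolynomial.aeval x (f i) = 0) ∧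
      ∀ j, MvPolynomial.aeval x (g j) ≠ 0) :
    ∃ x : Fin n → K, (∀ i, MvPolynomial.eval x (f i) = 0) ∧
      ∀ j, MvPolynomial.eval x (g j) ≠ 0 := by
  obtain ⟨x, hf0, hg⟩ := hx
  obtain ⟨y, hy, hy'⟩ := Pool.Agent.R4L.main hK hO f hf (∏ j, g j) x hf0 (by
    rw [map_prod]
    exact Finset.prod_ne_zero_iff.2 fun j _ => hg j)
  refine ⟨y, hy, fun j => ?_⟩
  rw [map_prod] at hy'
  exact Finset.prod_ne_zero_iff.1 hy' j (Finset.mem_univ j)

end Pool.Agent.Results.MP_4ed7e0_lc.LowDegree
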