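import Pool.Agent.Lib.MP_4ed7e0_lc_U.PExt

/-!
MP_4ed7e0_lc: large fields of characteristic `p`, solutions in finite Galois extensions of
`p`-power degree.

`Large`, `IsRat` are defined in `Pool/Agent/Lib/MP_4ed7e0_lc/Defs.lean`; `Solv` in
`Pool/Agent/Lib/MP_4ed7e0_lc_F/Defs.lean`.
-/

set_option autoImplicit false

namespace Pool.Agent.Results.MP_4ed7e0_lc.PExtensions

open Pool.Agent.R4A Pool.Agent.R4F

universe u

/-- Let `K` be a large field of characteristic `p > 0` (perfect or not) and `L` an extension field
with a `K`-rational place. Every finite system of polynomial equations over `K` which is solvable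
in `L` is solvable in a finite Galois extension of `K` whose degree is a power of `p`. -/
theorem result (p : ℕ) [Fact p.Prime] (K : Type u) [Field K] [CharP K p] (hK : Large K)
    (L : Type u) [Field L] [Algebra K L] (O : ValuationSubring L) (hO : IsRat K O) (n : ℕ)
    (S : Finset (MvPolynomial (Fin n) K)) (hS : Solv K L S) :
    ∃ N : IntermediateField K (AlgebraicClosure K), FiniteDimensional K N ∧ IsGalois K N ∧
      (∃ m : ℕ, Module.finrank K N = p ^ m) ∧ Solv K N S := by
  obtain ⟨N, ⟨h1, h2, h3⟩, h4⟩ := Pool.Agent.R4U.pext p hK L O hO S hS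
  exact ⟨N, h1, h2, h3, h4⟩

end Pool.Agent.Results.MP_4ed7e0_lc.PExtensions
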